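import Mathlib
import Pool.Agent.V11185.GPEven

/-!
# MP_86031e_co: the vertex cover number of generalized Petersen graphs
-/

namespace Pool.Agent.Results.MP_86031e_co.AllPetersen

open Pool.Agent.V11185.GP

/-- Ordered edges of `P(n,k)`: the outer vertices are `u_i = inl i`, the inner vertices
`v_i = inr i`, with indices modulo `n`; the edges are `u_i u_{i+1}`, `u_i v_i`, `v_i v_{i+k}`. -/
def edge (n k : ℕ) : Fin n ⊕ Fin n → Fin n ⊕ Fin n → Prop
  | .inl i, .inl j => (j : ℕ) = ((i : ℕ) + 1) % n
  | .inl i, .inr j => j = i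
  | .inr i, .inr j => (j : ℕ) = ((i : ℕ) + k) % n
  | .inr _, .inl _ => False

/-- The generalized Petersen graph `P(n,k)`. -/
def petersen (n k : ℕ) : SimpleGraph (Fin n ⊕ Fin n) := SimpleGraph.fromRel (edge n k)

theorem exists_indep (n k : ℕ) (hk : 1 ≤ k) (hn : 2 * k < n) :
    ∃ S : Finset (Fin n ⊕ Fin n), (petersen n k).IsIndepSet S ∧ n ≤ S.card + (n + 4) / 5 := by
  classical
  obtain ⟨V, K, h1, h2, h3, h4, h5⟩ := good n k hk hn
  have hV : ∀ i j : Fin n, (j : ℕ) = ((i : ℕ) + k) % n → V i → V j → False := by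
    intro i j hij hi hj
    rcases Nat.lt_or_ge ((i : ℕ) + k) n with h | h
    · rw [Nat.mod_eq_of_lt h] at hij
      rw [hij] at hj
      exact h1 i h hi hj
    · rw [Nat.mod_eq_sub_mod h, Nat.mod_eq_of_lt (by omega)] at hij
      rw [hij] at hj
      exact h2 i i.2 h hi hj
  have hU : ∀ i j : Fin n, (j : ℕ) = ((i : ℕ) + 1) % n → (¬ V i ∧ (i : ℕ) ∉ K) →
      (¬ V j ∧ (j : ℕ) ∉ K) → False := by
    intro i j hij hi hj
    rcases Nat.lt_or_ge ((i : ℕ) + 1) n with h | h
    · rw [Nat.mod_eq_of_lt h] at hij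
      rw [hij] at hj
      have := h3 i h
      tauto
    · have e : (i : ℕ) + 1 = n := by omega
      rw [e, Nat.mod_self] at hij
      rw [hij] at hj
      have e' : (i : ℕ) = n - 1 := by omega
      rw [e'] at hi
      tauto
  refine ⟨(Finset.univ.filter fun i : Fin n => ¬ V i ∧ (i : ℕ) ∉ K).disjSum
    (Finset.univ.filter fun i : Fin n => V i), ?_, ?_⟩
  · intro a ha b hb hab hadj
    rw [petersen, SimpleGraph.fromRel_adj] at hadj
    rcases a with i | i <;> rcases b with j | j <;>
      simp only [Finset.mem_coe, Finset.inl_mem_disjSum, Finset.inr_mem_disjSum,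
        Finset.mem_filter, Finset.mem_univ, true_and] at ha hb <;>
      simp only [edge, or_false, false_or] at hadj
    · rcases hadj.2 with h | h
      · exact hU i j h ha hb
      · exact hU j i h hb ha
    · rw [hadj.2] at hb
      exact ha.1 hb
    · rw [hadj.2] at ha
      exact hb.1 ha
    · rcases hadj.2 with h | h
      · exact hV i j h ha hb
      · exact hV j i h hb ha
  · rw [Finset.card_disjSum]
    have hcover : (Finset.univ : Finset (Fin n)) ⊆
        ((Finset.univ.filter fun i : Fin n => ¬ V i ∧ (i : ℕ) ∉ K) ∪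
          (Finset.univ.filter fun i : Fin n => V i)) ∪
          (Finset.univ.filter fun i : Fin n => (i : ℕ) ∈ K) := by
      intro i _
      simp only [Finset.mem_union, Finset.mem_filter, Finset.mem_univ, true_and]
      tauto
    have hc := Finset.card_le_card hcover
    have hK : (Finset.univ.filter fun i : Fin n => (i : ℕ) ∈ K).card ≤ K.card := by
      refine Finset.card_le_card_of_injOn (fun i : Fin n => (i : ℕ)) ?_ ?_
      · intro i hi
        simpa using hi
      · intro i _ j _ hij
        exact Fin.ext hij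
    have h6 := Finset.card_union_le ((Finset.univ.filter fun i : Fin n => ¬ V i ∧ (i : ℕ) ∉ K) ∪
          (Finset.univ.filter fun i : Fin n => V i))
          (Finset.univ.filter fun i : Fin n => (i : ℕ) ∈ K)
    have h7 := Finset.card_union_le (Finset.univ.filter fun i : Fin n => ¬ V i ∧ (i : ℕ) ∉ K)
          (Finset.univ.filter fun i : Fin n => V i)
    rw [Finset.card_univ, Fintype.card_fin] at hc
    omega

/-- **The conjecture of Behsaz, Hatami and Mahmoodian.** For all `n ≥ 3` and `1 ≤ k < n / 2` the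
vertex cover number of the generalized Petersen graph `P(n,k)` is at most `n + ⌈n / 5⌉`, and its
independence number is at least `⌊4 n / 5⌋`. -/
theorem result (n k : ℕ) (_hn : 3 ≤ n) (hk : 1 ≤ k) (hkn : 2 * k < n) :
    (petersen n k).vertexCoverNum ≤ ((n + ⌈(n : ℚ) / 5⌉₊ : ℕ) : ℕ∞) ∧
      ⌊(4 * n : ℚ) / 5⌋₊ ≤ (petersen n k).indepNum := by
  classical
  obtain ⟨S, hS, hc⟩ := exists_indep n k hk hkn
  have hceil : ⌈(n : ℚ) / 5⌉₊ = (n + 4) / 5 := by
    rw [Nat.ceil_eq_iff (by omega)]
    constructor
    · rw [lt_div_iff₀ (by norm_num)]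
      have h : ((n + 4) / 5 - 1) * 5 < n := by omega
      exact_mod_cast h
    · rw [div_le_iff₀ (by norm_num)]
      have h : n ≤ (n + 4) / 5 * 5 := by omega
      exact_mod_cast h
  have hfloor : ⌊(4 * n : ℚ) / 5⌋₊ = 4 * n / 5 := by
    have := Nat.floor_div_eq_div (K := ℚ) (4 * n) 5
    push_cast at this
    exact this
  constructor
  · have hcov : (petersen n k).IsVertexCover ((Sᶜ : Finset (Fin n ⊕ Fin n)) : Set _) := by
      intro a b hab
      by_contra hcon
      rw [not_or] at hcon
      simp only [Finset.coe_compl, Set.mem_compl_iff, Finset.mem_coe, not_not] at hcon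
      exact hS hcon.1 hcon.2 hab.ne hab
    refine hcov.vertexCoverNum_le.trans ?_
    rw [Set.encard_coe_eq_coe_finsetCard, Finset.card_compl, hceil]
    have : Fintype.card (Fin n ⊕ Fin n) - S.card ≤ n + (n + 4) / 5 := by
      simp only [Fintype.card_sum, Fintype.card_fin]
      omega
    exact_mod_cast this
  · rw [hfloor]
    refine le_trans ?_ hS.card_le_indepNum
    omega

end Pool.Agent.Results.MP_86031e_co.AllPetersen
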